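import Pool.Agent.W5h17.DM.Basic

/-!
# From few other neighbourhoods to small common neighbourhoods
-/

set_option autoImplicit false

namespace Pool.Agent.W5h17.DM

open SimpleGraph

/-- The greedy choice. -/
theorem greedy {V : Type} [Finite V] (G : SimpleGraph V) (K : Set V) (v : V) (r : ℕ) :
    ∃ X : Finset V, (∀ x ∈ X, x ∈ K) ∧ v ∉ X ∧ X.card ≤ r ∧
      ∀ x ∈ K, x ≠ v → r * {w : V | w ∈ Uncovered G K v X ∧ G.Adj x w}.ncard +
        (Uncovered G K v X).ncard ≤ {w : V | w ∈ K ∧ G.Adj v w}.ncard := by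
  classical
  have := Fintype.ofFinite V
  induction r with
  | zero =>
    refine ⟨∅, by simp, by simp, by simp, fun x _ _ => ?_⟩
    rw [Nat.zero_mul, Nat.zero_add]
    exact Set.ncard_le_ncard (fun w hw => ⟨hw.1, hw.2.1⟩) (Set.toFinite _)
  | succ r ih =>
    obtain ⟨X, hX, hv, hr, h⟩ := ih
    by_cases hne : ∃ x ∈ K, x ≠ v
    · obtain ⟨x₀, hx₀, hx₀v⟩ := hne
      obtain ⟨x, hx, hmax⟩ := Finset.exists_max_image
        (Finset.univ.filter (fun x => x ∈ K ∧ x ≠ v))
        (fun x => {w : V | w ∈ Uncovered G K v X ∧ G.Adj x w}.ncard)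
        ⟨x₀, Finset.mem_filter.2 ⟨Finset.mem_univ _, hx₀, hx₀v⟩⟩
      rw [Finset.mem_filter] at hx
      obtain ⟨-, hxK, hxv⟩ := hx
      refine ⟨insert x X, ?_, ?_, (Finset.card_insert_le _ _).trans (by omega), ?_⟩
      · intro y hy
        rcases Finset.mem_insert.1 hy with rfl | hy
        · exact hxK
        · exact hX y hy
      · rw [Finset.mem_insert, not_or]
        exact ⟨hxv.symm, hv⟩
      · intro y hy hyv
        have h1 := h x hxK hxv
        have hsub : Uncovered G K v (insert x X) ⊆ Uncovered G K v X := by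
          rintro w ⟨a1, a2, a3, a4⟩
          rw [Finset.mem_insert, not_or] at a3
          exact ⟨a1, a2, a3.2, fun z hz => a4 z (Finset.mem_insert_of_mem hz)⟩
        have h2 : {w : V | w ∈ Uncovered G K v (insert x X) ∧ G.Adj y w}.ncard ≤
            {w : V | w ∈ Uncovered G K v X ∧ G.Adj x w}.ncard := by
          refine le_trans (Set.ncard_le_ncard ?_ (Set.toFinite _))
            (hmax y (Finset.mem_filter.2 ⟨Finset.mem_univ _, hy, hyv⟩))
          exact fun w hw => ⟨hsub hw.1, hw.2⟩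
        have h3 : (Uncovered G K v (insert x X)).ncard +
            {w : V | w ∈ Uncovered G K v X ∧ G.Adj x w}.ncard ≤ (Uncovered G K v X).ncard := by
          rw [← Set.ncard_union_eq _ (Set.toFinite _) (Set.toFinite _)]
          · refine Set.ncard_le_ncard ?_ (Set.toFinite _)
            rintro w (hw | hw)
            · exact hsub hw
            · exact hw.1
          · rw [Set.disjoint_left]
            rintro w ⟨-, -, -, a4⟩ hw
            exact a4 x (Finset.mem_insert_self _ _) hw.2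
        generalize {w : V | w ∈ Uncovered G K v X ∧ G.Adj x w}.ncard = t at *
        generalize {w : V | w ∈ Uncovered G K v (insert x X) ∧ G.Adj y w}.ncard = t' at *
        have h4 : (r + 1) * t' ≤ (r + 1) * t := Nat.mul_le_mul_left _ h2
        have h5 : (r + 1) * t = r * t + t := by ring
        omega
    · push Not at hne
      exact ⟨X, hX, hv, hr.trans (Nat.le_succ r), fun x hx hxv => absurd (hne x hx) hxv⟩

/-- A large set of neighbours with small common neighbourhoods. -/
theorem small_codegrees {V : Type} [Finite V] (G : SimpleGraph V) (K : Set V) (D r A : ℕ)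
    (hK : ∀ v ∈ K, ∀ X : Finset V, (∀ x ∈ X, x ∈ K) → v ∉ X → X.card ≤ r →
        A * D + {w : V | w ∈ K ∧ G.Adj v w}.ncard < A * (Uncovered G K v X).ncard) :
    ∀ v ∈ K, ∃ U : Set V, (∀ w ∈ U, w ∈ K ∧ G.Adj v w) ∧
      A * D + {w : V | w ∈ K ∧ G.Adj v w}.ncard < A * U.ncard ∧
      ∀ x ∈ K, x ≠ v → (r + 1) * {w : V | w ∈ U ∧ G.Adj x w}.ncard ≤
        {w : V | w ∈ K ∧ G.Adj v w}.ncard := by
  intro v hv
  obtain ⟨X, hX, hvX, hr, h⟩ := greedy G K v r
  refine ⟨Uncovered G K v X, fun w hw => ⟨hw.1, hw.2.1⟩, hK v hv X hX hvX hr, ?_⟩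
  intro x hx hxv
  have h1 := h x hx hxv
  have h2 : {w : V | w ∈ Uncovered G K v X ∧ G.Adj x w}.ncard ≤ (Uncovered G K v X).ncard :=
    Set.ncard_le_ncard (fun w hw => hw.1) (Set.toFinite _)
  have h3 : (r + 1) * {w : V | w ∈ Uncovered G K v X ∧ G.Adj x w}.ncard =
      r * {w : V | w ∈ Uncovered G K v X ∧ G.Adj x w}.ncard +
        {w : V | w ∈ Uncovered G K v X ∧ G.Adj x w}.ncard := by ring
  omega

end Pool.Agent.W5h17.DM
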