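import Mathlib

/-!
# Removing vertices whose neighbourhood is almost covered by few other neighbourhoods
-/

set_option autoImplicit false

namespace Pool.Agent.W5h17.DM

open SimpleGraph

/-- The neighbours of `v` in `T` that are not in `X` and have no neighbour in `X`. -/
def Uncovered {V : Type} (G : SimpleGraph V) (T : Set V) (v : V) (X : Finset V) : Set V :=
  {w : V | w ∈ T ∧ G.Adj v w ∧ w ∉ X ∧ ∀ x ∈ X, ¬ G.Adj x w}

/-- `Reduces G D r A K`: one can get from all vertices to `K` by removing vertices one by one, where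
a vertex `v` of the current set `T` can be removed if there is a set `X` of at most `r` other
vertices of `T` such that at most `D + d / A` of the `d` neighbours of `v` in `T` are not covered by
`X`, that is, are not in `X` and have no neighbour in `X`. -/
inductive Reduces {V : Type} (G : SimpleGraph V) (D r A : ℕ) : Set V → Prop
  | univ : Reduces G D r A Set.univ
  | step {T : Set V} {v : V} {X : Finset V} : Reduces G D r A T → v ∈ T → (∀ x ∈ X, x ∈ T) →
      v ∉ X → X.card ≤ r →
      A * (Uncovered G T v X).ncard ≤ A * D + {w : V | w ∈ T ∧ G.Adj v w}.ncard →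
      Reduces G D r A (T \ {v})

/-- The order of the removals. -/
theorem Reduces.rank {V : Type} [Finite V] {G : SimpleGraph V} {D r A : ℕ} {K : Set V}
    (h : Reduces G D r A K) :
    ∃ (m : ℕ) (ρ : V → ℕ) (X : V → Finset V), (∀ v, v ∈ K ↔ ρ v = m) ∧ (∀ v, ρ v ≤ m) ∧
      (∀ u v, u ∉ K → ρ u = ρ v → u = v) ∧ (∀ v, ∀ x ∈ X v, ρ v < ρ x) ∧
      (∀ v, (X v).card ≤ r) ∧
      (∀ v, v ∉ K →
        A * {w : V | ρ v < ρ w ∧ G.Adj v w ∧ w ∉ X v ∧ ∀ x ∈ X v, ¬ G.Adj x w}.ncard ≤
          A * D + {w : V | ρ v < ρ w ∧ G.Adj v w}.ncard) := by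
  classical
  induction h with
  | univ =>
    exact ⟨0, fun _ => 0, fun _ => ∅, fun v => by simp, fun v => le_rfl,
      fun u v h => absurd (Set.mem_univ u) h, fun v x hx => absurd hx (Finset.notMem_empty x),
      fun v => by simp, fun v h => absurd (Set.mem_univ v) h⟩
  | @step T v Y hT hv hY hvY hYr hdom ih =>
    obtain ⟨m, ρ, X, h1, h2, h3, h4, h5, h6⟩ := ih
    have hlt : ∀ w, w ∉ T → ρ w < m := fun w hw =>
      lt_of_le_of_ne (h2 w) (fun h => hw ((h1 w).2 h))
    have hold : ∀ w, w ∉ T → ∀ z, (ρ w < (if z ∈ T \ {v} then m + 1 else ρ z) ↔ ρ w < ρ z) := by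
      intro w hw z
      have := hlt w hw
      by_cases hz : z ∈ T \ {v}
      · rw [if_pos hz, (h1 z).1 hz.1]
        omega
      · rw [if_neg hz]
    have hnew : ∀ z, (ρ v < (if z ∈ T \ {v} then m + 1 else ρ z) ↔ z ∈ T \ {v}) := by
      intro z
      have hvm := (h1 v).1 hv
      by_cases hz : z ∈ T \ {v}
      · rw [if_pos hz]
        exact ⟨fun _ => hz, fun _ => by omega⟩
      · rw [if_neg hz]
        have := h2 z
        exact ⟨fun h => by omega, fun h => absurd h hz⟩
    refine ⟨m + 1, fun w => if w ∈ T \ {v} then m + 1 else ρ w,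
      fun w => if w ∈ T \ {v} then ∅ else if w = v then Y else X w, ?_, ?_, ?_, ?_, ?_, ?_⟩
    · intro w
      by_cases h : w ∈ T \ {v}
      · simp only [h, if_true]
      · have := h2 w
        simp only [h, if_false, false_iff]
        omega
    · intro w
      have := h2 w
      simp only
      split_ifs <;> omega
    · intro u w hu huw
      have hum := h2 u
      simp only [hu, if_false] at huw
      by_cases hw : w ∈ T \ {v}
      · rw [if_pos hw] at huw
        omega
      · rw [if_neg hw] at huw
        by_cases huT : u ∈ T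
        · have huv : u = v := by
            by_contra hne
            exact hu ⟨huT, hne⟩
          have hwT : w ∈ T := by
            rw [h1, ← huw]
            exact (h1 u).1 huT
          have hwv : w = v := by
            by_contra hne
            exact hw ⟨hwT, hne⟩
          rw [huv, hwv]
        · exact h3 u w huT huw
    · intro w x hx
      by_cases hw : w ∈ T \ {v}
      · simp only [hw, if_true] at hx
        exact absurd hx (Finset.notMem_empty x)
      · simp only [hw, if_false] at hx ⊢
        by_cases hwv : w = v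
        · subst hwv
          rw [if_pos rfl] at hx
          have hxT := hY x hx
          have hxw : x ≠ w := fun h => hvY (h ▸ hx)
          exact (hnew x).2 ⟨hxT, hxw⟩
        · rw [if_neg hwv] at hx
          have hwT : w ∉ T := fun h => hw ⟨h, hwv⟩
          exact (hold w hwT x).2 (h4 w x hx)
    · intro w
      simp only
      split_ifs
      · simp
      · exact hYr
      · exact h5 w
    · intro w hw
      simp only [hw, if_false]
      by_cases hwv : w = v
      · subst hwv
        simp only [if_true, hnew]
        have e1 : {z : V | z ∈ T \ {w} ∧ G.Adj w z ∧ z ∉ Y ∧ ∀ x ∈ Y, ¬ G.Adj x z} =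
            Uncovered G T w Y := by
          ext z
          simp only [Uncovered, Set.mem_sdiff, Set.mem_singleton_iff, Set.mem_ofPred_eq]
          constructor
          · rintro ⟨⟨h7, -⟩, h8⟩
            exact ⟨h7, h8⟩
          · rintro ⟨h7, h8, h9⟩
            exact ⟨⟨h7, h8.ne'⟩, h8, h9⟩
        have e2 : {z : V | z ∈ T \ {w} ∧ G.Adj w z} = {z : V | z ∈ T ∧ G.Adj w z} := by
          ext z
          simp only [Set.mem_sdiff, Set.mem_singleton_iff, Set.mem_ofPred_eq]
          constructor
          · rintro ⟨⟨h7, -⟩, h8⟩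
            exact ⟨h7, h8⟩
          · rintro ⟨h7, h8⟩
            exact ⟨⟨h7, h8.ne'⟩, h8⟩
        rw [e1, e2]
        exact hdom
      · have hwT : w ∉ T := fun h => hw ⟨h, hwv⟩
        simp only [hold w hwT, if_neg hwv]
        exact h6 w hwT

/-- One can continue until no vertex can be removed. -/
theorem exists_stiff {V : Type} [Finite V] (G : SimpleGraph V) (D r A : ℕ) :
    ∃ K : Set V, Reduces G D r A K ∧ ∀ v ∈ K, ∀ X : Finset V, (∀ x ∈ X, x ∈ K) → v ∉ X →
      X.card ≤ r →
        A * D + {w : V | w ∈ K ∧ G.Adj v w}.ncard < A * (Uncovered G K v X).ncard := by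
  have key : ∀ (n : ℕ) (T : Set V), T.ncard ≤ n → Reduces G D r A T →
      ∃ K : Set V, Reduces G D r A K ∧ ∀ v ∈ K, ∀ X : Finset V, (∀ x ∈ X, x ∈ K) → v ∉ X →
        X.card ≤ r →
          A * D + {w : V | w ∈ K ∧ G.Adj v w}.ncard < A * (Uncovered G K v X).ncard := by
    intro n
    induction n with
    | zero =>
      intro T hT h
      have hT' : T = ∅ := by
        rw [← Set.ncard_eq_zero (Set.toFinite _)]
        omega
      refine ⟨T, h, fun v hv => ?_⟩
      rw [hT'] at hv
      exact absurd hv (Set.notMem_empty v)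
    | succ n ih =>
      intro T hT h
      by_cases hs : ∀ v ∈ T, ∀ X : Finset V, (∀ x ∈ X, x ∈ T) → v ∉ X → X.card ≤ r →
          A * D + {w : V | w ∈ T ∧ G.Adj v w}.ncard < A * (Uncovered G T v X).ncard
      · exact ⟨T, h, hs⟩
      · push Not at hs
        obtain ⟨v, hv, X, hX, hvX, hr, hle⟩ := hs
        refine ih (T \ {v}) ?_ (Reduces.step h hv hX hvX hr hle)
        rw [Set.ncard_sdiff_singleton_of_mem hv]
        omega
  exact key _ _ le_rfl Reduces.univ

end Pool.Agent.W5h17.DM
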