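import Pool.Agent.W5h17.DM.Paths
import Pool.Agent.W5h17.DM.Basic
import Pool.Agent.Y384.DM.Basic

/-!
# The number of edges of a graph without `C_{2k}` that can be reduced
-/

set_option autoImplicit false

namespace Pool.Agent.W5h17.DM

open Finset SimpleGraph

open Classical in
/-- The pairs for which exactly `j` steps are possible. -/
noncomputable def Lev {V : Type} [Fintype V] (G : SimpleGraph V) (k : ℕ) (ρ : V → ℕ)
    (X : V → Finset V) (j : ℕ) : Finset (V × V) :=
  univ.filter (fun q => Steps G k ρ X j q.1 q.2 ∧ ¬ Steps G k ρ X (j + 1) q.1 q.2)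

open Classical in
theorem mem_Lev {V : Type} [Fintype V] {G : SimpleGraph V} {k : ℕ} {ρ : V → ℕ}
    {X : V → Finset V} {j : ℕ} {q : V × V} :
    q ∈ Lev G k ρ X j ↔ Steps G k ρ X j q.1 q.2 ∧ ¬ Steps G k ρ X (j + 1) q.1 q.2 := by
  classical
  unfold Lev
  rw [mem_filter]
  exact and_iff_right (mem_univ _)

theorem swap_Lev {V : Type} [Fintype V] {G : SimpleGraph V} {k : ℕ} {ρ : V → ℕ}
    {X : V → Finset V} {j : ℕ} {q : V × V} (h : q ∈ Lev G k ρ X j) : q.swap ∈ Lev G k ρ X j := by
  classical
  rw [mem_Lev] at h ⊢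
  exact ⟨h.1.symm, fun h1 => h.2 h1.symm⟩

/-- The recursion. -/
theorem card_Lev_succ {V : Type} [Fintype V] (G : SimpleGraph V) {k : ℕ} (hk : 2 ≤ k)
    (hG : (cycleGraph (2 * k)).Free G) (ρ : V → ℕ) (X : V → Finset V) {r : ℕ}
    (hX : ∀ v, (X v).card ≤ r) (j : ℕ) :
    (Lev G k ρ X (j + 1)).card ≤ 4 * k * (r * Fintype.card V + (Lev G k ρ X j).card) := by
  classical
  set O := (Lev G k ρ X (j + 1)).filter (fun q => ρ q.1 < ρ q.2) with hO
  have h1 : (Lev G k ρ X (j + 1)).card ≤ 2 * O.card := by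
    have hsub : Lev G k ρ X (j + 1) ⊆ O ∪ O.image Prod.swap := by
      intro q hq
      rw [mem_union]
      have hq' := mem_Lev.1 hq
      rcases hq'.1 with ⟨x, hx, -⟩ | ⟨x, hx, -⟩
      · exact Or.inl (mem_filter.2 ⟨hq, hx.2.1⟩)
      · right
        rw [mem_image]
        exact ⟨q.swap, mem_filter.2 ⟨swap_Lev hq, hx.2.1⟩, Prod.swap_swap q⟩
    have h2 := (card_le_card hsub).trans (card_union_le _ _)
    have h3 : (O.image Prod.swap).card ≤ O.card := card_image_le
    omega
  have h2 : O ⊆ (univ : Finset V).biUnion (fun x =>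
      ((univ.filter (fun v => x ∈ X v)) ×ˢ (univ.filter (fun w => (x, w) ∈ Lev G k ρ X j))).filter
        (fun q => G.Adj q.1 q.2)) := by
    intro q hq
    obtain ⟨hq1, hlt⟩ := mem_filter.1 hq
    have hq' := mem_Lev.1 hq1
    rcases hq'.1 with ⟨x, hx, hs⟩ | ⟨x, hx, -⟩
    · rw [mem_biUnion]
      refine ⟨x, mem_univ _, mem_filter.2 ⟨mem_product.2 ⟨?_, ?_⟩, hx.1⟩⟩
      · exact mem_filter.2 ⟨mem_univ _, hx.2.2.1⟩
      · refine mem_filter.2 ⟨mem_univ _, mem_Lev.2 ⟨hs, fun h => hq'.2 ?_⟩⟩
        exact Or.inl ⟨x, hx, h⟩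
    · exact absurd hx.2.1 (not_lt.2 hlt.le)
  have h3 : O.card ≤ ∑ x : V, 2 * k * ((univ.filter (fun v => x ∈ X v)).card +
      (univ.filter (fun w => (x, w) ∈ Lev G k ρ X j)).card) := by
    refine (card_le_card h2).trans (card_biUnion_le.trans (sum_le_sum fun x _ => ?_))
    by_contra hcon
    refine hG (dense_cycle hk x _ _ ?_ (not_le.1 hcon))
    intro b hb
    exact (mem_Lev.1 (mem_filter.1 hb).2).1.adj
  have h4 : ∑ x : V, (univ.filter (fun v => x ∈ X v)).card ≤ r * Fintype.card V := by
    have h5 : ∑ x : V, (univ.filter (fun v => x ∈ X v)).card = ∑ v : V, (X v).card := by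
      simp_rw [card_filter]
      rw [sum_comm]
      refine sum_congr rfl fun v _ => ?_
      rw [← card_filter, filter_mem_eq_inter, univ_inter]
    rw [h5]
    refine (sum_le_card_nsmul _ _ r fun v _ => hX v).trans ?_
    rw [card_univ, smul_eq_mul, mul_comm]
  have h5 : ∑ x : V, (univ.filter (fun w => (x, w) ∈ Lev G k ρ X j)).card ≤
      (Lev G k ρ X j).card := by
    rw [card_eq_sum_card_fiberwise (f := Prod.fst) (t := (univ : Finset V))
      (fun v _ => mem_coe.2 (mem_univ _))]
    refine sum_le_sum fun x _ => ?_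
    refine card_le_card_of_injOn (fun w => (x, w)) ?_ ?_
    · intro w hw
      exact mem_coe.2 (mem_filter.2 ⟨(mem_filter.1 (mem_coe.1 hw)).2, rfl⟩)
    · intro a _ b _ hab
      exact (Prod.ext_iff.1 hab).2
  rw [← mul_sum, sum_add_distrib] at h3
  have h6 : 2 * k * (∑ x : V, (univ.filter (fun v => x ∈ X v)).card +
      ∑ x : V, (univ.filter (fun w => (x, w) ∈ Lev G k ρ X j)).card) ≤
      2 * k * (r * Fintype.card V + (Lev G k ρ X j).card) :=
    Nat.mul_le_mul_left _ (Nat.add_le_add h4 h5)
  have h7 : 4 * k * (r * Fintype.card V + (Lev G k ρ X j).card) =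
      2 * (2 * k * (r * Fintype.card V + (Lev G k ρ X j).card)) := by ring
  omega

/-- The pairs for which no step is possible. -/
theorem card_Lev_zero {V : Type} [Fintype V] [DecidableEq V] (G : SimpleGraph V) {k : ℕ}
    (hk : 2 ≤ k) {D r A : ℕ} {K : Set V} {m : ℕ} {ρ : V → ℕ} {X : V → Finset V}
    (h1 : ∀ v, v ∈ K ↔ ρ v = m) (h2 : ∀ v, ρ v ≤ m)
    (h3 : ∀ u v, u ∉ K → ρ u = ρ v → u = v)
    (h5 : ∀ v, (X v).card ≤ r)
    (h6 : ∀ v, v ∉ K →
        A * {w : V | ρ v < ρ w ∧ G.Adj v w ∧ w ∉ X v ∧ ∀ x ∈ X v, ¬ G.Adj x w}.ncard ≤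
          A * D + {w : V | ρ v < ρ w ∧ G.Adj v w}.ncard) :
    A * (Lev G k ρ X 0).card ≤ 2 * (A * (Fintype.card V * (D + 2 * k * r)) + G.edgeSet.ncard) +
      2 * (A * (G.induce K).edgeSet.ncard) := by
  classical
  set O := (Lev G k ρ X 0).filter (fun q => ρ q.1 < ρ q.2) with hO
  have e1 := Pool.Agent.Y384.DM.card_pairs G K
  have e2 := Pool.Agent.Y384.DM.card_pairs_univ G
  have e1' : (univ.filter (fun q : V × V => q.1 ∈ K ∧ q.2 ∈ K ∧ G.Adj q.1 q.2)).card =
      2 * (G.induce K).edgeSet.ncard := by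
    rw [← e1, Set.ncard_eq_toFinset_card']
    congr 1
    ext q
    simp
  have e2' : (univ.filter (fun q : V × V => G.Adj q.1 q.2)).card = 2 * G.edgeSet.ncard := by
    rw [← e2, Set.ncard_eq_toFinset_card']
    congr 1
    ext q
    simp
  -- the pairs `q` with `ρ q.1 < ρ q.2`
  set E := univ.filter (fun q : V × V => ρ q.1 < ρ q.2 ∧ G.Adj q.1 q.2) with hE
  have e3 : E.card ≤ G.edgeSet.ncard := by
    have hdisj : Disjoint E (E.image Prod.swap) := by
      rw [Finset.disjoint_left]
      intro q hq hq'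
      rw [mem_image] at hq'
      obtain ⟨s, hs, rfl⟩ := hq'
      have a1 := (mem_filter.1 hq).2.1
      have a2 := (mem_filter.1 hs).2.1
      simp only [Prod.fst_swap, Prod.snd_swap] at a1
      omega
    have hsub : E ∪ E.image Prod.swap ⊆ univ.filter (fun q : V × V => G.Adj q.1 q.2) := by
      intro q hq
      rw [mem_union, mem_image] at hq
      refine mem_filter.2 ⟨mem_univ _, ?_⟩
      rcases hq with hq | ⟨s, hs, rfl⟩
      · exact (mem_filter.1 hq).2.2
      · exact (mem_filter.1 hs).2.2.symm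
    have a1 := card_le_card hsub
    rw [card_union_of_disjoint hdisj, card_image_of_injective _ Prod.swap_injective, e2'] at a1
    omega
  -- split
  have e4 : (Lev G k ρ X 0).card ≤ 2 * O.card + 2 * (G.induce K).edgeSet.ncard := by
    have hsub : Lev G k ρ X 0 ⊆ (O ∪ O.image Prod.swap) ∪
        univ.filter (fun q : V × V => q.1 ∈ K ∧ q.2 ∈ K ∧ G.Adj q.1 q.2) := by
      intro q hq
      have hq' := mem_Lev.1 hq
      have hadj : G.Adj q.1 q.2 := hq'.1
      rw [mem_union, mem_union]
      rcases lt_trichotomy (ρ q.1) (ρ q.2) with h | h | h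
      · exact Or.inl (Or.inl (mem_filter.2 ⟨hq, h⟩))
      · right
        refine mem_filter.2 ⟨mem_univ _, ?_, ?_, hadj⟩
        · by_contra h7
          exact hadj.ne (h3 _ _ h7 h)
        · by_contra h7
          exact hadj.ne (h3 _ _ h7 h.symm).symm
      · left; right
        rw [mem_image]
        exact ⟨q.swap, mem_filter.2 ⟨swap_Lev hq, h⟩, Prod.swap_swap q⟩
    have a1 := (card_le_card hsub).trans ((card_union_le _ _).trans
      (Nat.add_le_add_right (card_union_le _ _) _))
    have a2 : (O.image Prod.swap).card ≤ O.card := card_image_le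
    rw [e1'] at a1
    omega
  -- the fibres of `O`
  have e5 : ∀ y : V, A * (O.filter (fun q => q.1 = y)).card ≤
      A * (D + 2 * k * r) + (E.filter (fun q => q.1 = y)).card := by
    intro y
    by_cases hy : y ∈ K
    · have : O.filter (fun q => q.1 = y) = ∅ := by
        rw [filter_eq_empty_iff]
        intro q hq hqy
        have a1 := (mem_filter.1 hq).2
        have a2 := h2 q.2
        rw [hqy, (h1 y).1 hy] at a1
        omega
      rw [this]
      simp
    · have a0 := h6 y hy
      set U := univ.filter (fun w => ρ y < ρ w ∧ G.Adj y w ∧ w ∉ X y ∧ ∀ x ∈ X y, ¬ G.Adj x w)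
        with hU
      have a1 : {w : V | ρ y < ρ w ∧ G.Adj y w ∧ w ∉ X y ∧ ∀ x ∈ X y, ¬ G.Adj x w}.ncard =
          U.card := by
        rw [Set.ncard_eq_toFinset_card', hU]
        congr 1
        ext w
        simp
      have a2 : {w : V | ρ y < ρ w ∧ G.Adj y w}.ncard = (E.filter (fun q => q.1 = y)).card := by
        rw [Set.ncard_eq_toFinset_card']
        refine card_bij (fun w _ => (y, w)) ?_ ?_ ?_
        · intro w hw
          rw [Set.mem_toFinset] at hw
          exact mem_filter.2 ⟨mem_filter.2 ⟨mem_univ _, hw⟩, rfl⟩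
        · intro w _ w' _ h
          exact (Prod.ext_iff.1 h).2
        · intro q hq
          obtain ⟨b1, b2⟩ := mem_filter.1 hq
          obtain ⟨-, b3⟩ := mem_filter.1 b1
          refine ⟨q.2, ?_, ?_⟩
          · rw [Set.mem_toFinset]
            rw [b2] at b3
            exact b3
          · rw [← b2]
      rw [a1, a2] at a0
      -- the fibre
      have a3 : (O.filter (fun q => q.1 = y)).card ≤ U.card + 2 * k * r := by
        have hsub : (O.filter (fun q => q.1 = y)).image Prod.snd ⊆ (U ∪ X y) ∪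
            (X y).biUnion (fun x => if (univ.filter (fun c => ρ y < ρ c ∧ G.Adj y c ∧
              G.Adj x c)).card < 2 * k then univ.filter (fun c => ρ y < ρ c ∧ G.Adj y c ∧
              G.Adj x c) else ∅) := by
          intro z hz
          rw [mem_image] at hz
          obtain ⟨q, hq, rfl⟩ := hz
          obtain ⟨b1, b2⟩ := mem_filter.1 hq
          obtain ⟨b3, b4⟩ := mem_filter.1 b1
          obtain ⟨b5, b6⟩ := mem_Lev.1 b3
          have b7 : G.Adj q.1 q.2 := b5
          rw [b2] at b4 b7
          rw [mem_union, mem_union]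
          by_cases c1 : q.2 ∈ X y
          · exact Or.inl (Or.inr c1)
          · by_cases c2 : ∀ x ∈ X y, ¬ G.Adj x q.2
            · exact Or.inl (Or.inl (mem_filter.2 ⟨mem_univ _, b4, b7, c1, c2⟩))
            · right
              push Not at c2
              obtain ⟨x, hx, hxz⟩ := c2
              rw [mem_biUnion]
              refine ⟨x, hx, ?_⟩
              have c3 : (univ.filter (fun c => ρ y < ρ c ∧ G.Adj y c ∧ G.Adj x c)).card <
                  2 * k := by
                by_contra c4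
                refine b6 (Or.inl ⟨x, ?_, hxz⟩)
                rw [b2]
                exact ⟨b7, b4, hx, hxz, not_lt.1 c4⟩
              rw [if_pos c3]
              exact mem_filter.2 ⟨mem_univ _, b4, b7, hxz⟩
        have hinj : ((O.filter (fun q => q.1 = y)).image Prod.snd).card =
            (O.filter (fun q => q.1 = y)).card := by
          refine card_image_of_injOn ?_
          intro a ha b hb hab
          have ha' := (mem_filter.1 (mem_coe.1 ha)).2
          have hb' := (mem_filter.1 (mem_coe.1 hb)).2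
          exact Prod.ext (ha'.trans hb'.symm) hab
        rw [← hinj]
        refine (card_le_card hsub).trans ((card_union_le _ _).trans ?_)
        have c1 := card_union_le U (X y)
        have c2 := h5 y
        have c3 : ((X y).biUnion (fun x => if (univ.filter (fun c => ρ y < ρ c ∧ G.Adj y c ∧
              G.Adj x c)).card < 2 * k then univ.filter (fun c => ρ y < ρ c ∧ G.Adj y c ∧
              G.Adj x c) else ∅)).card ≤ (X y).card * (2 * k - 1) := by
          refine card_biUnion_le_card_mul _ _ _ fun x _ => ?_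
          split_ifs with h
          · omega
          · simp
        have c4 : (X y).card * (2 * k - 1) ≤ r * (2 * k - 1) := Nat.mul_le_mul_right _ c2
        have c5 : 2 * k * r = r + r * (2 * k - 1) := by
          obtain ⟨l, hl⟩ : ∃ l, 2 * k = l + 1 := ⟨2 * k - 1, by omega⟩
          rw [hl, Nat.add_sub_cancel]
          ring
        omega
      calc A * (O.filter (fun q => q.1 = y)).card ≤ A * (U.card + 2 * k * r) :=
            Nat.mul_le_mul_left _ a3
        _ = A * U.card + A * (2 * k * r) := by ring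
        _ ≤ A * D + (E.filter (fun q => q.1 = y)).card + A * (2 * k * r) :=
            Nat.add_le_add_right a0 _
        _ = A * (D + 2 * k * r) + (E.filter (fun q => q.1 = y)).card := by ring
  have e6 : A * O.card ≤ A * (Fintype.card V * (D + 2 * k * r)) + E.card := by
    rw [card_eq_sum_card_fiberwise (s := O) (f := Prod.fst) (t := (univ : Finset V))
      (fun v _ => mem_coe.2 (mem_univ _)),
      card_eq_sum_card_fiberwise (s := E) (f := Prod.fst) (t := (univ : Finset V))
      (fun v _ => mem_coe.2 (mem_univ _)), mul_sum]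
    refine (sum_le_sum fun y _ => e5 y).trans ?_
    rw [sum_add_distrib, sum_const, card_univ, smul_eq_mul]
    refine Nat.add_le_add_right (le_of_eq ?_) _
    ring
  calc A * (Lev G k ρ X 0).card ≤ A * (2 * O.card + 2 * (G.induce K).edgeSet.ncard) :=
        Nat.mul_le_mul_left _ e4
    _ = 2 * (A * O.card) + 2 * (A * (G.induce K).edgeSet.ncard) := by ring
    _ ≤ 2 * (A * (Fintype.card V * (D + 2 * k * r)) + G.edgeSet.ncard) +
      2 * (A * (G.induce K).edgeSet.ncard) := by
        have := e6.trans (Nat.add_le_add_left e3 _)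
        omega

/-- The constant `2 (4 k) ^ (k - 1)`. -/
def Ak (k : ℕ) : ℕ := 2 * (4 * k) ^ (k - 1)

/-- The number of edges. -/
theorem main_bound (k : ℕ) (hk : 2 ≤ k) {V : Type} [Finite V] (G : SimpleGraph V)
    (hG : (cycleGraph (2 * k)).Free G) (D r : ℕ) {K : Set V}
    (hK : Reduces G D r (Ak k) K) :
    G.edgeSet.ncard ≤ Ak k * ((G.induce K).edgeSet.ncard + (D + (2 * k + 1) * r) * Nat.card V) := by
  classical
  have := Fintype.ofFinite V
  obtain ⟨m, ρ, X, h1, h2, h3, h4, h5, h6⟩ := hK.rank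
  rw [Nat.card_eq_fintype_card]
  have hz := card_Lev_zero G hk h1 h2 h3 h5 h6
  have hs := card_Lev_succ G hk hG ρ X h5
  set n := Fintype.card V with hn
  set f := fun j => (Lev G k ρ X j).card with hf
  have hb : ∀ j, f j + 2 * (r * n) ≤ (4 * k) ^ j * (f 0 + 2 * (r * n)) := by
    intro j
    induction j with
    | zero => simp
    | succ j ih =>
      have a1 : f (j + 1) ≤ 4 * k * (r * n + f j) := hs j
      have a2 : 2 * (r * n) ≤ 4 * k * (r * n) := Nat.mul_le_mul_right _ (by omega)
      calc f (j + 1) + 2 * (r * n) ≤ 4 * k * (r * n + f j) + 4 * k * (r * n) :=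
            Nat.add_le_add a1 a2
        _ = 4 * k * (f j + 2 * (r * n)) := by ring
        _ ≤ 4 * k * ((4 * k) ^ j * (f 0 + 2 * (r * n))) := Nat.mul_le_mul_left _ ih
        _ = (4 * k) ^ (j + 1) * (f 0 + 2 * (r * n)) := by ring
  have hsum : ∀ i, ∑ j ∈ range i, f j ≤ (4 * k) ^ i * (f 0 + 2 * (r * n)) := by
    intro i
    induction i with
    | zero => simp
    | succ i ih =>
      rw [sum_range_succ]
      have a1 : f i ≤ (4 * k) ^ i * (f 0 + 2 * (r * n)) := le_trans (Nat.le_add_right _ _) (hb i)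
      calc ∑ j ∈ range i, f j + f i ≤ (4 * k) ^ i * (f 0 + 2 * (r * n)) +
            (4 * k) ^ i * (f 0 + 2 * (r * n)) := Nat.add_le_add ih a1
        _ = 2 * ((4 * k) ^ i * (f 0 + 2 * (r * n))) := by ring
        _ ≤ 4 * k * ((4 * k) ^ i * (f 0 + 2 * (r * n))) := Nat.mul_le_mul_right _ (by omega)
        _ = (4 * k) ^ (i + 1) * (f 0 + 2 * (r * n)) := by ring
  -- all pairs
  have hall : 2 * G.edgeSet.ncard ≤ ∑ j ∈ range (k - 1), f j := by
    have e2 := Pool.Agent.Y384.DM.card_pairs_univ G
    have e2' : (univ.filter (fun q : V × V => G.Adj q.1 q.2)).card = 2 * G.edgeSet.ncard := by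
      rw [← e2, Set.ncard_eq_toFinset_card']
      congr 1
      ext q
      simp
    rw [← e2']
    have hsub : univ.filter (fun q : V × V => G.Adj q.1 q.2) ⊆
        (range (k - 1)).biUnion (fun j => Lev G k ρ X j) := by
      intro q hq
      have hadj : G.Adj q.1 q.2 := (mem_filter.1 hq).2
      rw [mem_biUnion]
      have hns := not_steps hk hG h4 q.1 q.2
      by_contra hcon
      push Not at hcon
      have hst : ∀ j, j ≤ k - 1 → Steps G k ρ X j q.1 q.2 := by
        intro j
        induction j with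
        | zero => intro _; exact hadj
        | succ j ih =>
          intro hj
          by_contra hc
          refine hcon j (mem_range.2 (by omega)) (mem_Lev.2 ⟨ih (by omega), hc⟩)
      exact hns (hst _ le_rfl)
    exact (card_le_card hsub).trans card_biUnion_le
  have hQ : 0 < (4 * k) ^ (k - 1) := Nat.pos_of_ne_zero (pow_ne_zero _ (by omega))
  set Q := (4 * k) ^ (k - 1) with hQdef
  have hA : Ak k = 2 * Q := rfl
  rw [hA] at hz ⊢
  have hfin : 2 * G.edgeSet.ncard ≤ Q * (f 0 + 2 * (r * n)) := hall.trans (hsum (k - 1))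
  have hz' : 2 * Q * f 0 ≤ 2 * (2 * Q * (n * (D + 2 * k * r)) + G.edgeSet.ncard) +
      2 * (2 * Q * (G.induce K).edgeSet.ncard) := hz
  generalize G.edgeSet.ncard = e at *
  generalize (G.induce K).edgeSet.ncard = eK at *
  generalize f 0 = f0 at *
  -- 2 Q * (2 e) ≤ Q * (2 Q f0 + 4 Q r n)
  have h7 : Q * (4 * e) ≤ Q * (2 * (2 * Q * (n * (D + 2 * k * r)) + e) + 2 * (2 * Q * eK) +
      4 * Q * (r * n)) := by
    calc Q * (4 * e) = 2 * Q * (2 * e) := by ring
      _ ≤ 2 * Q * (Q * (f0 + 2 * (r * n))) := Nat.mul_le_mul_left _ hfin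
      _ = Q * (2 * Q * f0 + 4 * Q * (r * n)) := by ring
      _ ≤ _ := Nat.mul_le_mul_left _ (Nat.add_le_add_right hz' _)
  have h8 := Nat.le_of_mul_le_mul_left h7 hQ
  have h9 : 2 * Q * (eK + (D + (2 * k + 1) * r) * n) * 2 =
      2 * (2 * Q * (n * (D + 2 * k * r))) + 2 * (2 * Q * eK) + 4 * Q * (r * n) := by ring
  omega

end Pool.Agent.W5h17.DM
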