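import Mathlib

/-!
# Cycles of length `2 k` from paths
-/

set_option autoImplicit false

namespace Pool.Agent.W5h17.DM

open SimpleGraph

variable {V : Type} {G : SimpleGraph V}

theorem edge_notMem_path {a b : V} (p : G.Walk b a) (hp : p.IsPath) (hl : 2 ≤ p.length) :
    s(a, b) ∉ p.edges := by
  cases p with
  | nil => simp at hl
  | @cons _ c _ h q =>
    rw [Walk.cons_isPath_iff] at hp
    intro hmem
    rw [Walk.edges_cons, List.mem_cons] at hmem
    rcases hmem with hmem | hmem
    · have hac : a = c := by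
        rcases Sym2.eq_iff.1 hmem with ⟨h1, h2⟩ | ⟨h1, h2⟩
        · exact absurd h2 h.ne
        · exact h1
      subst hac
      rw [Walk.length_cons] at hl
      have h0 : q.length = 0 := Walk.length_eq_zero_iff.2 (Walk.isPath_iff_nil.1 hp.1)
      omega
    · exact hp.2 (Walk.snd_mem_support_of_mem_edges q hmem)

/-- A path of length `n` between adjacent vertices closes to a cycle of length `n + 1`. -/
theorem close_cycle {a b : V} (hab : G.Adj a b) (p : G.Walk b a) (hp : p.IsPath) {n : ℕ}
    (hl : p.length = n) (hn : 2 ≤ n) : cycleGraph (n + 1) ⊑ G := by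
  rw [cycleGraph_isContained_iff (by omega)]
  refine ⟨a, Walk.cons hab p, ?_, by simp [hl]⟩
  rw [Walk.cons_isCycle_iff]
  exact ⟨hp, edge_notMem_path p hp (by omega)⟩

/-- A vertex of a large finite set outside the support of a short walk. -/
theorem exists_fresh [DecidableEq V] {a b : V} (p : G.Walk a b) (S : Finset V)
    (h : p.length + 1 < S.card) : ∃ c ∈ S, c ∉ p.support := by
  by_contra hcon
  push Not at hcon
  have h1 : S ⊆ p.support.toFinset := fun c hc => List.mem_toFinset.2 (hcon c hc)
  have h2 := Finset.card_le_card h1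
  have h3 := p.support.toFinset_card_le
  rw [Walk.length_support] at h3
  omega

/-- The data of a good step. -/
def Good [Fintype V] [DecidableEq V] (G : SimpleGraph V) [DecidableRel G.Adj] (k : ℕ) (ρ : V → ℕ)
    (X : V → Finset V) (y z x : V) : Prop :=
  G.Adj y z ∧ ρ y < ρ z ∧ x ∈ X y ∧ G.Adj x z ∧
    2 * k ≤ (Finset.univ.filter (fun c => ρ y < ρ c ∧ G.Adj y c ∧ G.Adj x c)).card

/-- `j` good steps are possible. -/
def Steps [Fintype V] [DecidableEq V] (G : SimpleGraph V) [DecidableRel G.Adj] (k : ℕ) (ρ : V → ℕ)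
    (X : V → Finset V) : ℕ → V → V → Prop
  | 0, a, b => G.Adj a b
  | j + 1, a, b => (∃ x, Good G k ρ X a b x ∧ Steps G k ρ X j x b) ∨
      (∃ x, Good G k ρ X b a x ∧ Steps G k ρ X j x a)

theorem Steps.symm [Fintype V] [DecidableEq V] [DecidableRel G.Adj] {k : ℕ} {ρ : V → ℕ}
    {X : V → Finset V} {j : ℕ} {a b : V} (h : Steps G k ρ X j a b) : Steps G k ρ X j b a := by
  cases j with
  | zero => exact SimpleGraph.Adj.symm h
  | succ j => exact Or.symm h

theorem Steps.adj [Fintype V] [DecidableEq V] [DecidableRel G.Adj] {k : ℕ} {ρ : V → ℕ}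
    {X : V → Finset V} {j : ℕ} {a b : V} (h : Steps G k ρ X j a b) : G.Adj a b := by
  cases j with
  | zero => exact h
  | succ j =>
    rcases h with ⟨x, hx, -⟩ | ⟨x, hx, -⟩
    · exact hx.1
    · exact hx.1.symm

/-- If `j` steps are possible, then there is a path of length `2 j + 1`. -/
theorem Steps.path [Fintype V] [DecidableEq V] [DecidableRel G.Adj] {k : ℕ} {ρ : V → ℕ}
    {X : V → Finset V} (hX : ∀ y, ∀ x ∈ X y, ρ y < ρ x) {j : ℕ} (hj : j + 1 ≤ k) {a b : V}
    (h : Steps G k ρ X j a b) :
    ∃ p : G.Walk a b, p.IsPath ∧ p.length = 2 * j + 1 ∧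
      ∀ w ∈ p.support, min (ρ a) (ρ b) ≤ ρ w := by
  induction j generalizing a b with
  | zero =>
    have h : G.Adj a b := h
    refine ⟨Walk.cons h Walk.nil, ?_, by simp, ?_⟩
    · simp [Walk.cons_isPath_iff, h.ne]
    · intro w hw
      simp only [Walk.support_cons, Walk.support_nil, List.mem_cons, List.not_mem_nil,
        or_false] at hw
      rcases hw with rfl | rfl
      · exact min_le_left _ _
      · exact min_le_right _ _
  | succ j ih =>
    have key : ∀ y z : V, (∃ x, Good G k ρ X y z x ∧ Steps G k ρ X j x z) →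
        ∃ p : G.Walk y z, p.IsPath ∧ p.length = 2 * (j + 1) + 1 ∧
          ∀ w ∈ p.support, min (ρ y) (ρ z) ≤ ρ w := by
      rintro y z ⟨x, ⟨hyz, hlt, hx, hxz, hc⟩, hs⟩
      obtain ⟨p, hp, hl, hw⟩ := ih (by omega) hs
      obtain ⟨c, hc, hcp⟩ := exists_fresh p _ (show p.length + 1 < _ from by
        rw [hl]; exact lt_of_lt_of_le (by omega) hc)
      rw [Finset.mem_filter] at hc
      obtain ⟨-, hyc, hadj, hxc⟩ := hc
      have hyx := hX y x hx
      have hw' : ∀ w ∈ p.support, ρ y < ρ w := fun w hw1 =>
        lt_of_lt_of_le (lt_min hyx hlt) (hw w hw1)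
      refine ⟨Walk.cons hadj (Walk.cons hxc.symm p), ?_, ?_, ?_⟩
      · rw [Walk.cons_isPath_iff, Walk.cons_isPath_iff]
        refine ⟨⟨hp, hcp⟩, ?_⟩
        rw [Walk.support_cons, List.mem_cons, not_or]
        exact ⟨hadj.ne, fun h => lt_irrefl _ (hw' y h)⟩
      · simp only [Walk.length_cons, hl]
        omega
      · intro w hw1
        rw [min_eq_left hlt.le]
        simp only [Walk.support_cons, List.mem_cons] at hw1
        rcases hw1 with rfl | rfl | hw1
        · exact le_rfl
        · exact hyc.le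
        · exact (hw' w hw1).le
    rcases h with h | h
    · exact key a b h
    · obtain ⟨p, hp, hl, hw⟩ := key b a h
      refine ⟨p.reverse, hp.reverse, by rw [Walk.length_reverse, hl], fun w hw1 => ?_⟩
      rw [Walk.support_reverse, List.mem_reverse] at hw1
      rw [min_comm]
      exact hw w hw1

/-- No edge allows `k - 1` steps. -/
theorem not_steps [Fintype V] [DecidableEq V] [DecidableRel G.Adj] {k : ℕ} (hk : 2 ≤ k)
    (hG : (cycleGraph (2 * k)).Free G) {ρ : V → ℕ}
    {X : V → Finset V} (hX : ∀ y, ∀ x ∈ X y, ρ y < ρ x) (a b : V) :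
    ¬ Steps G k ρ X (k - 1) a b := by
  intro h
  obtain ⟨p, hp, hl, -⟩ := h.symm.path hX (by omega)
  have h1 := close_cycle h.adj p hp hl (by omega)
  have h2 : 2 * (k - 1) + 1 + 1 = 2 * k := by omega
  rw [h2] at h1
  exact hG h1

/-- Paths between `A` and the neighbourhood of `x`. -/
theorem dense_cycle [DecidableEq V] [DecidableRel G.Adj] {k : ℕ} (hk : 2 ≤ k) (x : V)
    (A B : Finset V) (hB : ∀ b ∈ B, G.Adj x b)
    (h : 2 * k * (A.card + B.card) < ((A ×ˢ B).filter (fun q => G.Adj q.1 q.2)).card) :
    cycleGraph (2 * k) ⊑ G := by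
  classical
  -- induction on the sizes
  generalize hn : A.card + B.card = n at h
  induction n using Nat.strong_induction_on generalizing A B with
  | _ n ih =>
  by_cases hA : ∃ a ∈ A, (B.filter (fun b => G.Adj a b)).card ≤ 2 * k
  · obtain ⟨a, ha, hdeg⟩ := hA
    have hpos : 0 < A.card := Finset.card_pos.2 ⟨a, ha⟩
    have hcard : (A.erase a).card + B.card = n - 1 := by
      rw [Finset.card_erase_of_mem ha]
      omega
    refine ih (n - 1) (by omega) (A.erase a) B hB hcard ?_
    have hsub : (A ×ˢ B).filter (fun q => G.Adj q.1 q.2) ⊆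
        ((A.erase a ×ˢ B).filter (fun q => G.Adj q.1 q.2)) ∪
          (B.filter (fun b => G.Adj a b)).image (fun b => (a, b)) := by
      intro q hq
      rw [Finset.mem_filter, Finset.mem_product] at hq
      rw [Finset.mem_union, Finset.mem_filter, Finset.mem_product, Finset.mem_image]
      by_cases hqa : q.1 = a
      · right
        refine ⟨q.2, Finset.mem_filter.2 ⟨hq.1.2, hqa ▸ hq.2⟩, ?_⟩
        rw [← hqa]
      · left
        exact ⟨⟨Finset.mem_erase.2 ⟨hqa, hq.1.1⟩, hq.1.2⟩, hq.2⟩
    have h1 := (Finset.card_le_card hsub).trans (Finset.card_union_le _ _)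
    have h2 : ((B.filter (fun b => G.Adj a b)).image (fun b => (a, b))).card ≤ 2 * k :=
      Finset.card_image_le.trans hdeg
    have h3 : 2 * k * n = 2 * k * (n - 1) + 2 * k := by
      obtain ⟨m, rfl⟩ : ∃ m, n = m + 1 := ⟨n - 1, by omega⟩
      rw [Nat.add_sub_cancel]
      ring
    omega
  · by_cases hB' : ∃ b ∈ B, (A.filter (fun a => G.Adj a b)).card ≤ 2 * k
    · obtain ⟨b, hb, hdeg⟩ := hB'
      have hpos : 0 < B.card := Finset.card_pos.2 ⟨b, hb⟩
      have hcard : A.card + (B.erase b).card = n - 1 := by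
        rw [Finset.card_erase_of_mem hb]
        omega
      refine ih (n - 1) (by omega) A (B.erase b)
        (fun c hc => hB c (Finset.mem_of_mem_erase hc)) hcard ?_
      have hsub : (A ×ˢ B).filter (fun q => G.Adj q.1 q.2) ⊆
          ((A ×ˢ B.erase b).filter (fun q => G.Adj q.1 q.2)) ∪
            (A.filter (fun a => G.Adj a b)).image (fun a => (a, b)) := by
        intro q hq
        rw [Finset.mem_filter, Finset.mem_product] at hq
        rw [Finset.mem_union, Finset.mem_filter, Finset.mem_product, Finset.mem_image]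
        by_cases hqb : q.2 = b
        · right
          refine ⟨q.1, Finset.mem_filter.2 ⟨hq.1.1, hqb ▸ hq.2⟩, ?_⟩
          rw [← hqb]
        · left
          exact ⟨⟨hq.1.1, Finset.mem_erase.2 ⟨hqb, hq.1.2⟩⟩, hq.2⟩
      have h1 := (Finset.card_le_card hsub).trans (Finset.card_union_le _ _)
      have h2 : ((A.filter (fun a => G.Adj a b)).image (fun a => (a, b))).card ≤ 2 * k :=
        Finset.card_image_le.trans hdeg
      have h3 : 2 * k * n = 2 * k * (n - 1) + 2 * k := by
        obtain ⟨m, rfl⟩ : ∃ m, n = m + 1 := ⟨n - 1, by omega⟩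
        rw [Nat.add_sub_cancel]
        ring
      omega
    · -- large minimum degrees
      push Not at hA hB'
      have hpath : ∀ i : ℕ, i + 1 ≤ k → ∃ w ∈ B, ∃ p : G.Walk w x, p.IsPath ∧
          p.length = 2 * i + 1 := by
        intro i
        induction i with
        | zero =>
          intro _
          obtain ⟨q, hq⟩ : ((A ×ˢ B).filter (fun q => G.Adj q.1 q.2)).Nonempty :=
            Finset.card_pos.1 (by omega)
          rw [Finset.mem_filter, Finset.mem_product] at hq
          refine ⟨q.2, hq.1.2, Walk.cons (hB _ hq.1.2).symm Walk.nil, ?_, by simp⟩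
          simp [Walk.cons_isPath_iff, (hB _ hq.1.2).ne']
        | succ i ihi =>
          intro hi
          obtain ⟨w, hw, p, hp, hl⟩ := ihi (by omega)
          obtain ⟨v, hv, hvp⟩ := exists_fresh p _ (show p.length + 1 < _ from by
            rw [hl]; exact lt_trans (by omega) (hB' w hw))
          rw [Finset.mem_filter] at hv
          have hp1 : (Walk.cons hv.2 p).IsPath := by
            rw [Walk.cons_isPath_iff]
            exact ⟨hp, hvp⟩
          obtain ⟨w', hw', hwp⟩ := exists_fresh (Walk.cons hv.2 p) _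
            (show (Walk.cons hv.2 p).length + 1 < _ from by
            rw [Walk.length_cons, hl]; exact lt_of_le_of_lt (by omega) (hA v hv.1))
          rw [Finset.mem_filter] at hw'
          refine ⟨w', hw'.1, Walk.cons hw'.2.symm (Walk.cons hv.2 p), ?_, ?_⟩
          · rw [Walk.cons_isPath_iff]
            exact ⟨hp1, hwp⟩
          · rw [Walk.length_cons, Walk.length_cons, hl]
            omega
      obtain ⟨w, hw, p, hp, hl⟩ := hpath (k - 1) (by omega)
      have h1 := close_cycle (hB w hw) p hp hl (by omega)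
      have h2 : 2 * (k - 1) + 1 + 1 = 2 * k := by omega
      rwa [h2] at h1

end Pool.Agent.W5h17.DM
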