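import Pool.Agent.W5h17.DM.Main

/-!
# Graphs with two similar vertices in each induced subgraph
-/

set_option autoImplicit false

namespace Pool.Agent.W5h17.DM

open SimpleGraph

/-- If each set of at least two vertices contains two vertices whose neighbourhoods in the set
differ in at most `D` other vertices, then there are few edges. -/
theorem similar_bound (k : ℕ) (hk : 2 ≤ k) {V : Type} [Finite V] (G : SimpleGraph V)
    (hG : (cycleGraph (2 * k)).Free G) (D : ℕ)
    (h : ∀ T : Set V, 2 ≤ T.ncard → ∃ u ∈ T, ∃ v ∈ T, u ≠ v ∧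
      {w : V | w ∈ T ∧ w ≠ u ∧ w ≠ v ∧ ¬ (G.Adj u w ↔ G.Adj v w)}.ncard ≤ D) :
    G.edgeSet.ncard ≤ Ak k * ((D + (2 * k + 1)) * Nat.card V) := by
  classical
  have hA : 0 < Ak k := by
    unfold Ak
    have : 0 < (4 * k) ^ (k - 1) := Nat.pos_of_ne_zero (pow_ne_zero _ (by omega))
    omega
  obtain ⟨K, hK1, hK2⟩ := exists_stiff G D 1 (Ak k)
  have h1 := main_bound k hk G hG D 1 hK1
  have h2 : K.ncard < 2 := by
    by_contra hcon
    obtain ⟨u, hu, v, hv, huv, hle⟩ := h K (not_lt.1 hcon)
    have h3 := hK2 v hv {u} (by simpa using hu) (by simpa using huv.symm) (by simp)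
    have h4 : (Uncovered G K v {u}).ncard ≤ D := by
      refine le_trans (Set.ncard_le_ncard ?_ (Set.toFinite _)) hle
      rintro w ⟨hw, hadj, hwu, hnot⟩
      rw [Finset.mem_singleton] at hwu
      have h5 := hnot u (Finset.mem_singleton_self u)
      exact ⟨hw, hwu, hadj.ne', fun hiff => h5 (hiff.2 hadj)⟩
    have h5 := Nat.mul_le_mul_left (Ak k) h4
    omega
  have h3 : (G.induce K).edgeSet.ncard = 0 := by
    rw [Set.ncard_eq_zero (Set.toFinite _), Set.eq_empty_iff_forall_notMem]
    intro e he
    induction e using Sym2.ind with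
    | _ a b =>
      have hadj : (G.induce K).Adj a b := he
      have hle : K.ncard ≤ 1 := by omega
      rw [Set.ncard_le_one (Set.toFinite _)] at hle
      exact hadj.ne (Subtype.ext (hle a a.2 b b.2))
  rw [h3, Nat.zero_add, Nat.mul_one] at h1
  exact h1

end Pool.Agent.W5h17.DM
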